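import Pool.Agent.H.MP_42cda2_nt.Cert

namespace Pool.Agent.H.MP_42cda2_nt

/-- value of the affine form coded by an atom -/
def val (t a b c : ℕ) : ℕ := t / 4 % 32 * a + t / 128 % 32 * b + t / 4096 % 32 * c + t / 131072

def sem (a b c t : ℕ) : Prop :=
  (t % 4 = 0 → ∃ k, val t a b c = 4 ^ k) ∧ (t % 4 = 1 → val t a b c = 0) ∧
    (2 ≤ t % 4 → val t a b c ≠ 0)

def stepA (d e f t : ℕ) : Option ℕ :=
  let s := val t d e f
  if t % 4 = 0 then
    if s % 4 = 0 then some (t % 131072 + 131072 * (s / 4))
    else if s = 1 then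
      some (1 + 4 * min (t / 4 % 32) 1 + 128 * min (t / 128 % 32) 1 + 4096 * min (t / 4096 % 32) 1)
    else none
  else if t % 4 = 1 then (if s = 0 then some t else none)
  else if s = 0 then some t else some 1

theorem stepA_ok {d e f a b c t : ℕ} (h : sem (d + 4 * a) (e + 4 * b) (f + 4 * c) t) :
    ∃ u, stepA d e f t = some u ∧ sem a b c u := by
  have v : val t (d + 4 * a) (e + 4 * b) (f + 4 * c)
      = val t d e f + 4 * (t / 4 % 32 * a + t / 128 % 32 * b + t / 4096 % 32 * c) := by
    unfold val; ring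
  have v0 : val t d e f = 0 → val t a b c = t / 4 % 32 * a + t / 128 % 32 * b + t / 4096 % 32 * c :=
    fun h => by unfold val at h ⊢; omega
  obtain ⟨h0, h1, h2⟩ := h
  rw [v] at h0 h1 h2
  unfold stepA
  simp only
  split_ifs with c0 c1 c2 c3 c4 c5
  · refine ⟨_, rfl, fun _ => ?_, by omega, by omega⟩
    obtain ⟨k, hk⟩ := h0 c0
    rcases k with _ | k
    · omega
    refine ⟨k, ?_⟩
    generalize val t d e f = s at *
    unfold val
    rw [show (t % 131072 + 131072 * (s / 4)) / 4 % 32 = t / 4 % 32 by omega,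
      show (t % 131072 + 131072 * (s / 4)) / 128 % 32 = t / 128 % 32 by omega,
      show (t % 131072 + 131072 * (s / 4)) / 4096 % 32 = t / 4096 % 32 by omega,
      show (t % 131072 + 131072 * (s / 4)) / 131072 = s / 4 by omega]
    omega
  · refine ⟨_, rfl, by omega, fun _ => ?_, by omega⟩
    obtain ⟨k, hk⟩ := h0 c0
    rcases k with _ | k
    swap
    · omega
    generalize t / 4 % 32 = x at *
    generalize t / 128 % 32 = y at *
    generalize t / 4096 % 32 = z at *
    have m : ∀ x a : ℕ, x * a = 0 → min x 1 * a = 0 := fun x a h => by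
      rcases Nat.mul_eq_zero.1 h with rfl | rfl <;> simp
    have hx := m x a (by omega)
    have hy := m y b (by omega)
    have hz := m z c (by omega)
    unfold val
    rw [show (1 + 4 * min x 1 + 128 * min y 1 + 4096 * min z 1) / 4 % 32 = min x 1 by omega,
      show (1 + 4 * min x 1 + 128 * min y 1 + 4096 * min z 1) / 128 % 32 = min y 1 by omega,
      show (1 + 4 * min x 1 + 128 * min y 1 + 4096 * min z 1) / 4096 % 32 = min z 1 by omega,
      show (1 + 4 * min x 1 + 128 * min y 1 + 4096 * min z 1) / 131072 = 0 by omega]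
    omega
  · obtain ⟨k, hk⟩ := h0 c0
    rcases k with _ | k <;> omega
  · exact ⟨_, rfl, by omega, fun _ => by have := h1 c3; have := v0 c4; omega, by omega⟩
  · have := h1 c3; omega
  · exact ⟨_, rfl, by omega, by omega, fun h => by have := h2 h; have := v0 c5; omega⟩
  · exact ⟨_, rfl, by omega, fun _ => by simp [val], by omega⟩

def Sem (a b c : ℕ) (S : List (List ℕ)) : Prop := ∀ C ∈ S, ∃ t ∈ C, sem a b c t

def step (d e f : ℕ) (S : List (List ℕ)) : List (List ℕ) := S.map (·.filterMap (stepA d e f))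

theorem step_ok {d e f a b c : ℕ} {S : List (List ℕ)}
    (h : Sem (d + 4 * a) (e + 4 * b) (f + 4 * c) S) : Sem a b c (step d e f S) := by
  intro C hC
  obtain ⟨C', hC', rfl⟩ := List.mem_map.1 hC
  obtain ⟨t, ht, hs⟩ := h C' hC'
  obtain ⟨u, hu, hs'⟩ := stepA_ok hs
  exact ⟨u, List.mem_filterMap.2 ⟨t, ht, hu⟩, hs'⟩

def imp (T U : List (List ℕ)) : Bool := U.all fun CU => T.any fun C => C.all fun t => CU.elem t

theorem imp_ok {a b c : ℕ} {T U : List (List ℕ)} (h : imp T U = true) (hT : Sem a b c T) :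
    Sem a b c U := by
  intro CU hCU
  obtain ⟨C, hC, h2⟩ := List.any_eq_true.1 (List.all_eq_true.1 h CU hCU)
  obtain ⟨t, ht, hs⟩ := hT C hC
  exact ⟨t, List.mem_of_elem_eq_true (List.all_eq_true.1 h2 t ht), hs⟩

def good (H : List ℕ) (T : List (List ℕ)) : Bool :=
  T.any List.isEmpty || H.any fun j => match cert[j]? with
    | some U => imp T U.2
    | none => false

theorem good_ok {a b c : ℕ} {H : List ℕ} {T : List (List ℕ)} (h : good H T = true)
    (hT : Sem a b c T) : ∃ U ∈ cert, Sem a b c U.2 := by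
  rcases Bool.or_eq_true_iff.1 h with h | h
  · obtain ⟨C, hC, h2⟩ := List.any_eq_true.1 h
    obtain ⟨t, ht, -⟩ := hT C hC
    rw [List.isEmpty_iff.1 h2] at ht
    simp at ht
  · obtain ⟨j, -, h2⟩ := List.any_eq_true.1 h
    split at h2
    · rename_i U hU
      exact ⟨U, List.mem_of_getElem? hU, imp_ok h2 hT⟩
    · simp at h2

def zeroA (t : ℕ) : Bool :=
  if t % 4 = 0 then (List.range (t / 131072 + 1)).all fun k => t / 131072 != 4 ^ k
  else if t % 4 = 1 then t / 131072 != 0 else t / 131072 == 0

theorem zeroA_ok {t : ℕ} (h : zeroA t = true) : ¬ sem 0 0 0 t := by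
  rintro ⟨h0, h1, h2⟩
  simp only [val, mul_zero, zero_add] at h0 h1 h2
  unfold zeroA at h
  split_ifs at h with c0 c1
  · obtain ⟨k, hk⟩ := h0 c0
    have := List.all_eq_true.1 h k (List.mem_range.2 (by
      have := Nat.lt_pow_self (n := k) (show 1 < 4 by norm_num); omega))
    simp [hk] at this
  · simp [h1 c1] at h
  · exact h2 (by omega) (by simpa using h)

def chk (U : List ℕ × List (List ℕ)) : Bool :=
  U.2.any (·.all zeroA) && (List.range 4).all fun d => (List.range 4).all fun e =>
    (List.range 4).all fun f => good U.1 (step d e f U.2)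

theorem chk_all : cert.all chk = true := by decide +kernel

theorem cert_false (n : ℕ) : ∀ a b c, a + b + c = n → ∀ U ∈ cert, ¬ Sem a b c U.2 := by
  induction n using Nat.strong_induction_on with
  | _ n ih =>
  intro a b c hn U hU hS
  obtain ⟨h1, h2⟩ := Bool.and_eq_true_iff.1 (List.all_eq_true.1 chk_all U hU)
  rcases Nat.eq_zero_or_pos n with rfl | hpos
  · obtain ⟨C, hC, h3⟩ := List.any_eq_true.1 h1
    obtain ⟨t, ht, hs⟩ := hS C hC
    rw [show a = 0 by omega, show b = 0 by omega, show c = 0 by omega] at hs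
    exact zeroA_ok (List.all_eq_true.1 h3 t ht) hs
  · have g := List.all_eq_true.1 (List.all_eq_true.1 (List.all_eq_true.1 h2 (a % 4)
      (List.mem_range.2 (by omega))) (b % 4) (List.mem_range.2 (by omega))) (c % 4)
      (List.mem_range.2 (by omega))
    rw [← Nat.mod_add_div a 4, ← Nat.mod_add_div b 4, ← Nat.mod_add_div c 4] at hS
    obtain ⟨V, hV, hs⟩ := good_ok g (step_ok hS)
    exact ih _ (by omega) _ _ _ rfl V hV hs

/-- bit mask of the squares below `30²` -/
def sqs : ℕ := (List.range 30).foldl (fun m w => m + 2 ^ (w * w)) 0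

def reps (n : ℕ) : List ℕ :=
  (List.range (n + 1)).flatMap fun x => (List.range (n + 1)).flatMap fun y =>
    if x * x + y * y ≤ n * n then (List.range (n + 1)).filterMap fun z =>
      if x + y + z ≠ 0 ∧ x * x + y * y + z * z ≤ n * n ∧ sqs.testBit (n * n - (x * x + y * y + z * z)) then
        some (4 * x + 128 * y + 4096 * z) else none
    else []

theorem reps_ok {a b c n : ℕ} (hn : n < 30)
    (h : ∃ x y z w k : ℕ, n ^ 2 = x ^ 2 + y ^ 2 + z ^ 2 + w ^ 2 ∧ a * x + b * y + c * z = 4 ^ k) :
    ∃ t ∈ reps n, sem a b c t := by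
  obtain ⟨x, y, z, w, k, h1, h2⟩ := h
  have hx : x ≤ n := by nlinarith
  have hy : y ≤ n := by nlinarith
  have hz : z ≤ n := by nlinarith
  have hw : w ≤ n := by nlinarith
  have hs : ∀ w < 30, sqs.testBit (w * w) = true := by decide +kernel
  simp only [sq] at h1
  refine ⟨4 * x + 128 * y + 4096 * z, ?_, fun _ => ⟨k, ?_⟩, by omega, by omega⟩
  · refine List.mem_flatMap.2 ⟨x, List.mem_range.2 (by omega), List.mem_flatMap.2
      ⟨y, List.mem_range.2 (by omega), ?_⟩⟩
    rw [if_pos (by omega)]
    refine List.mem_filterMap.2 ⟨z, List.mem_range.2 (by omega), ?_⟩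
    have h0 : x + y + z ≠ 0 := fun h => by
      rw [show x = 0 by omega, show y = 0 by omega, show z = 0 by omega] at h2
      have := pow_pos (show 0 < 4 by norm_num) k
      omega
    rw [if_pos ⟨h0, by omega, by
      rw [show n * n - (x * x + y * y + z * z) = w * w by omega]; exact hs w (by omega)⟩]
  · unfold val
    rw [show (4 * x + 128 * y + 4096 * z) / 4 % 32 = x by omega,
      show (4 * x + 128 * y + 4096 * z) / 128 % 32 = y by omega,
      show (4 * x + 128 * y + 4096 * z) / 4096 % 32 = z by omega,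
      show (4 * x + 128 * y + 4096 * z) / 131072 = 0 by omega, ← h2]
    ring

def NS : List ℕ := [1, 2, 3, 6, 7, 9, 11, 13, 15, 18, 19, 22, 23, 25, 26, 29]

def top (R : List (List ℕ)) (d e f : ℕ) : Bool :=
  if d = 1 ∧ e = 2 ∧ f = 3 then good topH ([4230] :: step d e f R)
  else good topH (step d e f ([6] :: [130] :: [4098] :: R))

def tops (R : List (List ℕ)) : Bool :=
  (List.range 4).all fun f => f == 0 || (List.range (f + 1)).all fun e =>
    (List.range (e + 1)).all fun d => top R d e f

theorem tops_ok : tops (NS.map reps) = true := by decide +kernel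

theorem core {a b c : ℕ} (ha : 0 < a) (hb : 0 < b) (hc : 0 < c) (h4 : c % 4 ≠ 0)
    (h1 : a % 4 ≤ b % 4) (h2 : b % 4 ≤ c % 4)
    (h : ∀ n, 0 < n → ∃ x y z w k : ℕ, n ^ 2 = x ^ 2 + y ^ 2 + z ^ 2 + w ^ 2 ∧
      a * x + b * y + c * z = 4 ^ k) : a = 1 ∧ b = 2 ∧ c = 3 := by
  by_contra hne
  have hR : Sem a b c (NS.map reps) := by
    intro C hC
    obtain ⟨n, hn, rfl⟩ := List.mem_map.1 hC
    have := (show ∀ n ∈ NS, 0 < n ∧ n < 30 by decide) n hn
    exact reps_ok this.2 (h n this.1)
  have g := List.all_eq_true.1 tops_ok (c % 4) (List.mem_range.2 (by omega))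
  rw [Bool.or_eq_true_iff] at g
  have g := List.all_eq_true.1 (List.all_eq_true.1 (g.resolve_left (by simpa using h4)) (b % 4)
    (List.mem_range.2 (by omega))) (a % 4) (List.mem_range.2 (by omega))
  unfold top at g
  split_ifs at g with hc
  · rw [← Nat.mod_add_div a 4, ← Nat.mod_add_div b 4, ← Nat.mod_add_div c 4] at hR
    obtain ⟨V, hV, hs⟩ := good_ok (a := a / 4) (b := b / 4) (c := c / 4) g fun C hC => by
      rcases List.mem_cons.1 hC with rfl | hC
      · exact ⟨4230, by simp, by omega, by omega, fun _ => by simp only [val]; omega⟩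
      · exact step_ok hR C hC
    exact cert_false _ _ _ _ rfl V hV hs
  · have hR' : Sem a b c ([6] :: [130] :: [4098] :: NS.map reps) := fun C hC => by
      rcases List.mem_cons.1 hC with rfl | hC
      · exact ⟨6, by simp, by omega, by omega, fun _ => by simp only [val]; omega⟩
      rcases List.mem_cons.1 hC with rfl | hC
      · exact ⟨130, by simp, by omega, by omega, fun _ => by simp only [val]; omega⟩
      rcases List.mem_cons.1 hC with rfl | hC
      · exact ⟨4098, by simp, by omega, by omega, fun _ => by simp only [val]; omega⟩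
      · exact hR C hC
    rw [← Nat.mod_add_div a 4, ← Nat.mod_add_div b 4, ← Nat.mod_add_div c 4] at hR'
    obtain ⟨V, hV, hs⟩ := good_ok g (step_ok hR')
    exact cert_false _ _ _ _ rfl V hV hs

end Pool.Agent.H.MP_42cda2_nt
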